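import Pool.Agent.MP_0bb195_co.sp.Words
import Mathlib.Tactic.FieldSimp
import Mathlib.Tactic.Ring
import Mathlib.Tactic.NormNum
import Mathlib.Tactic.GCongr

/-!
Sequences given by a table up to `60` and by a geometric term after it, and a test that such
sequences dominate the transfer recursion for folded words.
-/

namespace Pool.Agent.MP_0bb195_co.Sp

open Finset

/-- Entry `n` of a table written in base `2 ^ 32`. -/
def lk (t n : ℕ) : ℕ := (t >>> (32 * n)) % 4294967296

/-- A table and the constant of the geometric tail. -/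
structure Sq where
  t : ℕ
  k : ℕ

/-- Three sequences, one for each number of small neighbours. -/
structure Tri where
  a : Sq
  b : Sq
  c : Sq

/-- The sequence of a state. -/
def Tri.at (T : Tri) (l rr : Bool) : Sq := cond l (cond rr T.c T.b) (cond rr T.b T.a)

/-- The geometric tail. -/
noncomputable def geo (k n : ℕ) : ℝ := k / 1048576 * (200 / 151) ^ n

/-- The real sequence. -/
noncomputable def Sq.val (s : Sq) (n : ℕ) : ℝ := if n ≤ 60 then (lk s.t n : ℝ) else geo s.k n

/-- `p 0, …, p (k - 1)` all hold. -/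
def allB (p : ℕ → Bool) : ℕ → Bool
  | 0 => true
  | k + 1 => p k && allB p k

lemma allB_spec {p : ℕ → Bool} : ∀ k, allB p k = true → ∀ i, i < k → p i = true
  | 0, _, _, h => by omega
  | k + 1, h, i, hi => by
    rw [allB, Bool.and_eq_true] at h
    by_cases e : i = k
    · exact e ▸ h.1
    · exact allB_spec k h.2 i (by omega)

/-- The last `2 r` entries lie below the geometric tail. -/
def win (r : ℕ) (s : Sq) : Bool :=
  allB (fun i => Nat.ble (lk s.t (60 - i) * (1048576 * 151 ^ (60 - i))) (s.k * 200 ^ (60 - i)))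
    (2 * r)

/-- The geometric tail over a common denominator. -/
def gam (r k m : ℕ) : ℕ := k * (200 ^ m * 151 ^ (2 * r - m))

/-- All four states pass `p`. -/
def four (p : Bool → Bool → Bool) : Bool := p false false && p true false && p false true && p true true

lemma four_spec {p : Bool → Bool → Bool} (h : four p = true) (l rr : Bool) : p l rr = true := by
  simp only [four, Bool.and_eq_true] at h
  cases l <;> cases rr <;> simp [h.1.1.1, h.1.1.2, h.1.2, h.2]

/-- The test. -/
def chk (r : ℕ) (s : Sq) (T : Tri) : Bool :=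
  allB (fun n => four fun l rr => Nat.ble
    (rhs r (lk s.t) (fun l rr => lk (T.at l rr).t) l rr n) (lk (T.at l rr).t n)) 61 &&
  (win r s && four fun l rr => win r (T.at l rr)) &&
  four fun l rr => Nat.ble
    (rhs r (gam r s.k) (fun l rr => gam r (T.at l rr).k) l rr (2 * r)) (gam r (T.at l rr).k (2 * r))

lemma geo_nonneg (k n : ℕ) : 0 ≤ geo k n := by unfold geo; positivity

lemma Sq.nonneg (s : Sq) (n : ℕ) : 0 ≤ s.val n := by
  unfold Sq.val
  split_ifs
  · positivity
  · exact geo_nonneg _ _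

lemma win_spec {r n : ℕ} {s : Sq} (h : win r s = true) (hn : 61 ≤ n + 2 * r) :
    s.val n ≤ geo s.k n := by
  unfold Sq.val
  split_ifs with h1
  · have k := allB_spec _ h (60 - n) (by omega)
    rw [show 60 - (60 - n) = n by omega, Nat.ble_eq] at k
    have k' : (lk s.t n : ℝ) * (1048576 * 151 ^ n) ≤ s.k * 200 ^ n := by exact_mod_cast k
    rw [geo, div_pow, div_mul_div_comm, le_div_iff₀ (by positivity)]
    exact k'
  · exact le_rfl

lemma sm_le {f : ℕ → ℝ} {g : ℕ → ℕ} {c : ℝ} : ∀ r : ℕ,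
    (∀ k, 1 ≤ k → k ≤ r → f k ≤ c * g k) → sm f r ≤ c * (sm g r : ℕ)
  | 0, _ => by simp [sm]
  | r + 1, h => by
    have h1 := sm_le r fun k a b => h k a (by omega)
    have h2 := h (r + 1) (by omega) le_rfl
    rw [sm, sm, Nat.cast_add, mul_add]
    exact add_le_add h1 h2

lemma cond_le {b b' : Bool} {x c : ℝ} {y : ℕ} (hc : 0 ≤ c) (h : b = true → b' = true)
    (k : b = true → x ≤ c * y) : cond b x 0 ≤ c * (cond b' y 0 : ℕ) := by
  cases b
  · exact mul_nonneg hc (Nat.cast_nonneg _)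
  · rw [h rfl]
    exact k rfl

lemma rhs_le {r n n' : ℕ} {σ : ℕ → ℝ} {V : Bool → Bool → ℕ → ℝ} {σ' : ℕ → ℕ}
    {V' : Bool → Bool → ℕ → ℕ} {c : ℝ} (hc : 0 ≤ c)
    (h : ∀ s, s ≤ 2 * r → s ≤ n → s ≤ n' ∧ σ (n - s) ≤ c * σ' (n' - s) ∧
      (0 < s → ∀ l rr, V l rr (n - s) ≤ c * V' l rr (n' - s))) (l rr : Bool) :
    rhs r σ V l rr n ≤ c * (rhs r σ' V' l rr n' : ℕ) := by
  rw [rhs, rhs, Nat.cast_add, Nat.cast_add, mul_add, mul_add]
  refine add_le_add (cond_le hc id fun _ => (h 0 (by omega) (by omega)).2.1)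
    (add_le_add (sm_le r fun k _ hk => cond_le hc (fun e => ?_) fun e => ?_)
      (sm_le r fun a ha1 ha => cond_le hc id fun _ => sm_le r fun b _ hb =>
        cond_le hc (fun e => ?_) fun e => ?_))
  · simp only [Bool.and_eq_true, Nat.ble_eq] at e ⊢
    exact ⟨⟨e.1.1, (h k (by omega) e.1.2).1⟩, e.2⟩
  · simp only [Bool.and_eq_true, Nat.ble_eq] at e
    exact (h k (by omega) e.1.2).2.1
  · simp only [Bool.and_eq_true, Nat.ble_eq] at e ⊢
    exact ⟨e.1, (h _ (by omega) e.2).1⟩
  · simp only [Bool.and_eq_true, Nat.ble_eq] at e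
    exact (h _ (by omega) e.2).2.2 (by omega) _ _

lemma geo_gam {r n s : ℕ} (k : ℕ) (h1 : s ≤ 2 * r) (h2 : s ≤ n) :
    geo k (n - s) = (200 / 151 : ℝ) ^ n / (1048576 * 200 ^ (2 * r)) * gam r k (2 * r - s) := by
  obtain ⟨m, rfl⟩ := Nat.exists_eq_add_of_le h2
  obtain ⟨d, hd⟩ := Nat.exists_eq_add_of_le h1
  rw [geo, gam, hd, Nat.add_sub_cancel_left, Nat.add_sub_cancel_left, Nat.add_sub_cancel]
  push_cast
  simp only [pow_add, div_pow]
  field_simp

theorem chk_sup {r : ℕ} {s : Sq} {T : Tri} (hr : 2 * r ≤ 61) (h : chk r s T = true) (l rr : Bool)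
    (n : ℕ) : rhs r s.val (fun l rr => (T.at l rr).val) l rr n ≤ (T.at l rr).val n := by
  simp only [chk, Bool.and_eq_true] at h
  obtain ⟨⟨h1, h2, h3⟩, h4⟩ := h
  by_cases hn : n ≤ 60
  · have k := four_spec (allB_spec _ h1 n (by omega)) l rr
    rw [Nat.ble_eq] at k
    refine (rhs_le (c := 1) (n' := n) (σ' := lk s.t) (V' := fun l rr => lk (T.at l rr).t)
      zero_le_one (fun j _ hj => ⟨hj, ?_, fun _ l rr => ?_⟩) l rr).trans ?_
    · rw [Sq.val, if_pos (by omega), one_mul]
    · rw [Sq.val, if_pos (by omega), one_mul]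
    · rw [Sq.val, if_pos hn, one_mul]
      exact_mod_cast k
  · have k := four_spec h4 l rr
    rw [Nat.ble_eq] at k
    have hc : (0 : ℝ) ≤ (200 / 151 : ℝ) ^ n / (1048576 * 200 ^ (2 * r)) := by positivity
    refine (rhs_le (n' := 2 * r) (σ' := gam r s.k) (V' := fun l rr => gam r (T.at l rr).k)
      hc (fun j hj hj' => ⟨hj, ?_, fun _ l rr => ?_⟩) l rr).trans ?_
    · rw [← geo_gam _ hj hj']
      exact win_spec h2 (by omega)
    · rw [← geo_gam _ hj hj']
      exact win_spec (four_spec h3 l rr) (by omega)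
    · have e := geo_gam (r := r) (n := n) (s := 0) (T.at l rr).k (by omega) (by omega)
      rw [Nat.sub_zero, Nat.sub_zero] at e
      rw [Sq.val, if_neg hn, e]
      exact mul_le_mul_of_nonneg_left (by exact_mod_cast k) hc

theorem chk_bd {r : ℕ} {s : Sq} {T : Tri} (hr : 2 * r ≤ 61) (h : chk r s T = true) (n : ℕ) :
    Bd (fun w => (Q r w ∧ Sym r w) ∧ w.sum ≤ n) (fun w => s.val (n - w.sum)) (T.b.val n) :=
  (fold s.nonneg (chk_sup hr h) n true false).mono fun _ hw => ⟨hw.1.1.ok hw.1.2, hw.2⟩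

theorem chk_tail {r n : ℕ} {s : Sq} {T : Tri} (h : chk r s T = true) (hn : 61 ≤ n + 2 * r) :
    T.b.val n ≤ geo T.b.k n := by
  simp only [chk, Bool.and_eq_true] at h
  exact win_spec (four_spec h.1.2.2 true false) hn

/-- The sequence `1, 0, 0, …`. -/
def dl : Sq := ⟨1, 0⟩

lemma dl_zero : dl.val 0 = 1 := by
  rw [Sq.val, if_pos (by omega)]
  exact_mod_cast (by decide : lk dl.t 0 = 1)

end Pool.Agent.MP_0bb195_co.Sp
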