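import Pool.Agent.MP_0bb195_co.sp.Kunz
import Pool.Agent.MP_0bb195_co.sp.Check

/-!
Recursions for the numbers of triples of depth two and three, and a bound for large depth.
-/

namespace Pool.Agent.MP_0bb195_co.Sp

open Finset

/-- The number of first parts as a real number. -/
noncomputable def x (q n : ℕ) : ℝ := (xs q n).card

/-- The sequence `1, 0, 0, …`. -/
noncomputable def δ (n : ℕ) : ℝ := if n = 0 then 1 else 0

variable {P : List ℕ → Prop} {σ f f' : ℕ → ℝ} {q n r : ℕ} {B : ℝ}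

lemma x_nonneg (q n : ℕ) : 0 ≤ x q n := Nat.cast_nonneg _

lemma δ_nonneg (n : ℕ) : 0 ≤ δ n := by unfold δ; split_ifs <;> norm_num

lemma x_le (h0 : σ 0 = 1) (hP : ∀ w, X q w → P w)
    (h : Bd (fun w => P w ∧ w.sum ≤ n) (fun w => σ (n - w.sum)) B) : x q n ≤ B := by
  have := h (xs q n) fun w hw => ⟨hP w (mem_xs.1 hw).1, (mem_xs.1 hw).2.le⟩
  rwa [sum_congr rfl fun w hw => show σ (n - w.sum) = 1 by
    rw [(mem_xs.1 hw).2, Nat.sub_self, h0], sum_const, nsmul_eq_mul, mul_one] at this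

lemma D_eq (q n : ℕ) : (D q n : ℝ) = ∑ v ∈ ys q n, x q (n - v.sum) := by
  simp only [D, x, Nat.cast_sum]

lemma D_le (hσ : ∀ m, x q m ≤ σ m) (hP : ∀ w, Y q w → P w)
    (h : Bd (fun w => P w ∧ w.sum ≤ n) (fun w => σ (n - w.sum)) B) : (D q n : ℝ) ≤ B := by
  rw [D_eq]
  exact (sum_le_sum fun v _ => hσ _).trans
    (h (ys q n) fun w hw => ⟨hP w (mem_ys.1 hw).1, (mem_ys.1 hw).2⟩)

lemma le_x (hP : ∀ w, P w → X q w)
    (h : Lw (fun w => P w ∧ w.sum ≤ n) (fun w => δ (n - w.sum)) B) : B ≤ x q n := by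
  obtain ⟨t, h1, h2⟩ := h
  refine h2.trans ?_
  simp only [δ, sum_boole, x]
  exact_mod_cast card_le_card fun w hw => by
    have k := mem_filter.1 hw
    have := h1 w k.1
    exact mem_xs.2 ⟨hP w this.1, by omega⟩

lemma le_D (hP : ∀ w, P w → Y q w)
    (h : Lw (fun w => P w ∧ w.sum ≤ n) (fun w => x q (n - w.sum)) B) : B ≤ (D q n : ℝ) := by
  obtain ⟨t, h1, h2⟩ := h
  rw [D_eq]
  exact h2.trans (sum_le_sum_of_subset_of_nonneg
    (fun w hw => mem_ys.2 ⟨hP w (h1 w hw).1, (h1 w hw).2⟩) fun _ _ _ => x_nonneg _ _)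

lemma D_two (n : ℕ) : x 2 (n + 1) + D 2 n ≤ D 2 (n + 1) := by
  have k0 : Lw (fun w => w = []) (fun w => x 2 (n + 1 - w.sum)) (x 2 (n + 1)) :=
    Lw.single (f := fun w => x 2 (n + 1 - w.sum)) []
  have k1 : Lw (fun w => ∃ u, (Y 2 u ∧ u.sum ≤ n) ∧ w = 1 :: u) (fun w => x 2 (n + 1 - w.sum))
      (D 2 n) := Lw.map (List.cons_injective (a := 1))
    ⟨ys 2 n, fun w hw => mem_ys.1 hw, by
      rw [D_eq]
      refine le_of_eq (sum_congr rfl fun v _ => ?_)
      simp only [List.sum_cons, add_comm 1, Nat.add_sub_add_right]⟩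
  refine le_D (fun _ => id) ((k0.or k1 ?_).mono ?_)
  · rintro w rfl ⟨u, -, e⟩
    simp at e
  · rintro w (rfl | ⟨u, hu, rfl⟩)
    · exact ⟨⟨Q_nil, by omega⟩, by simp⟩
    · exact ⟨⟨hu.1.1.one le_rfl, by omega⟩, by rw [List.sum_cons]; omega⟩

/-- Convolution of `f` with the number of compositions into parts `2, 3`. -/
noncomputable def Eh (f : ℕ → ℝ) : ℕ → ℝ
  | 0 => f 0
  | 1 => f 1
  | 2 => f 2 + f 0
  | n + 3 => f (n + 3) + (Eh f (n + 1) + Eh f n)

lemma Eh_eq (f : ℕ → ℝ) : ∀ n, Eh f n = f n + (sh (Eh f) 2 n + sh (Eh f) 3 n)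
  | 0 => by simp [Eh, sh]
  | 1 => by simp [Eh, sh]
  | 2 => by simp [Eh, sh]
  | n + 3 => by simp [Eh, sh]

lemma D_three (n : ℕ) : (D 3 n : ℝ) = Eh (x 3) n :=
  le_antisymm
    (D_le (fun _ => le_rfl) (fun _ h => h.1) (front (r := 2) (by omega) (x_nonneg 3)
      (fun n => by rw [Eh_eq (x 3) n]; simp [sm]) n))
    (le_D (fun _ h => ⟨h.1, by omega⟩) (back (r := 2) (a := 1) le_rfl (by omega) n
      (fun n _ => (Eh_eq (x 3) n).le) n le_rfl))

lemma pad_le (n : ℕ) : Eh δ n ≤ x 2 n :=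
  le_x (fun _ h => ⟨h.1, by omega, by omega⟩) (back (r := 2) (a := 1) le_rfl (by omega) n
    (fun n _ => (Eh_eq δ n).le) n le_rfl)

lemma sh_le {N : ℕ} (h : ∀ m, m ≤ N → f m ≤ f' m) {d : ℕ} (hn : n ≤ N + d) :
    sh f d n ≤ sh f' d n := by
  unfold sh
  split_ifs
  · exact h _ (by omega)
  · exact le_rfl

lemma sh_nonneg (h : ∀ m, 0 ≤ f m) (d n : ℕ) : 0 ≤ sh f d n := by
  unfold sh
  split_ifs
  · exact h _
  · exact le_rfl

lemma sh_sh (f : ℕ → ℝ) (a d n : ℕ) : sh (sh f a) d n = sh f (d + a) n := by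
  unfold sh
  split_ifs <;> first | rfl | omega | rw [Nat.sub_sub]

lemma sh_pos {d : ℕ} (h : d ≤ n) (f : ℕ → ℝ) : sh f d n = f (n - d) := if_pos h

lemma sh_neg {d : ℕ} (h : ¬ d ≤ n) (f : ℕ → ℝ) : sh f d n = 0 := if_neg h

lemma le_Eh {L : ℕ → ℝ} {N : ℕ} (h : ∀ n, n ≤ N → L n ≤ f n + (sh L 2 n + sh L 3 n)) (n : ℕ)
    (hn : n ≤ N) : L n ≤ Eh f n := by
  induction n using Nat.strong_induction_on with
  | _ n ih =>
  rw [Eh_eq]
  rcases Nat.eq_zero_or_pos n with rfl | h0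
  · simpa [sh] using h 0 hn
  have k := fun m (hm : m ≤ n - 1) => ih m (by omega) (by omega)
  exact (h n hn).trans (add_le_add le_rfl (add_le_add (sh_le k (by omega)) (sh_le k (by omega))))

lemma sh_Eh (f : ℕ → ℝ) (d n : ℕ) :
    sh (Eh f) d n = sh f d n + (sh (Eh f) (d + 2) n + sh (Eh f) (d + 3) n) := by
  rw [← sh_sh, ← sh_sh]
  by_cases h : d ≤ n
  · simp only [sh_pos h]
    exact Eh_eq f _
  · simp [sh_neg h]

lemma le_x_three {L : ℕ → ℝ} {N : ℕ} (h : ∀ n, n ≤ N → L n ≤ δ n + (sh L 3 n + sh L 5 n)) (n : ℕ)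
    (hn : n ≤ N) : L n ≤ x 3 n := by
  refine le_x (fun w hw => ⟨hw.1, fun _ a b ha _ => ?_, by omega⟩)
    (back (r := 3) (a := 2) (by omega) (by omega) N h n hn)
  have la : a < w.length := not_le.1 fun h => by
    rw [List.getD_eq_default _ _ h] at ha; omega
  rw [List.getD_eq_getElem _ _ la] at ha
  have := hw.2 _ (List.getElem_mem la)
  omega

lemma X_left {u t : List ℕ} (h : X 3 (u ++ 3 :: t)) : X 3 u := by
  refine ⟨⟨h.1.1.left, fun hu => ?_⟩, fun _ a b ha hb => ?_, by omega⟩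
  · have := h.1.2 (by simp)
    rwa [List.getD_append _ _ _ _ hu] at this
  have la : a < u.length := not_le.1 fun h => by
    rw [List.getD_eq_default _ _ h] at ha; omega
  have lb : b < u.length := not_le.1 fun h => by
    rw [List.getD_eq_default _ _ h] at hb; omega
  have k := (h.2.1 rfl a b (by rwa [List.getD_append _ _ _ _ la])
    (by rwa [List.getD_append _ _ _ _ lb])).2
  refine ⟨fun e => k ?_, fun e => k ?_⟩
  · rw [e, List.getD_append_right _ _ _ _ le_rfl]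
    simp
  · have lc : a + b + 1 < u.length := not_le.1 fun h => by
      rw [List.getD_eq_default _ _ h] at e; omega
    rwa [List.getD_append _ _ _ _ lc]

lemma X_cases {w : List ℕ} (h : X 3 w) : w = [] ∨ (∃ u, X 3 u ∧ w = u ++ [3]) ∨
    (∃ u, X 3 u ∧ w = u ++ [3, 1]) ∨ ∃ u, X 3 u ∧ w = u ++ [3, 2] := by
  rcases List.eq_nil_or_concat' w with rfl | ⟨t, b, rfl⟩
  · exact Or.inl rfl
  by_cases e : b = 3
  · subst e
    exact Or.inr (Or.inl ⟨t, X_left h, rfl⟩)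
  rcases List.eq_nil_or_concat' t with rfl | ⟨u, c, rfl⟩
  · exact absurd (by simpa using h.1.2) e
  rw [List.append_assoc, List.singleton_append] at h ⊢
  have k1 := h.1.1.lt (u.length + 1) (by simp)
  have k2 := h.1.1.adj u.length (by simp)
  rw [List.getD_append_right _ _ _ _ (by omega : u.length ≤ u.length + 1)] at k1 k2
  rw [List.getD_append_right _ _ _ _ le_rfl] at k2
  simp only [Nat.add_sub_cancel_left, Nat.sub_self, List.getD_cons_succ, List.getD_cons_zero]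
    at k1 k2
  obtain rfl : c = 3 := by omega
  rcases (by omega : b = 1 ∨ b = 2) with rfl | rfl
  · exact Or.inr (Or.inr (Or.inl ⟨u, X_left h, rfl⟩))
  · exact Or.inr (Or.inr (Or.inr ⟨u, X_left h, rfl⟩))

lemma x_three (n : ℕ) : x 3 n ≤ δ n + (sh (x 3) 3 n + (sh (x 3) 4 n + sh (x 3) 5 n)) := by
  have k0 : Bd (fun w => n = 0 ∧ w = []) (fun _ => 1) (δ n) :=
    Bd.ite fun _ => Bd.single (w0 := []) (f := fun _ => 1) zero_le_one
  have k : ∀ t : List ℕ, Bd (fun w => t.sum ≤ n ∧ ∃ u, u ∈ xs 3 (n - t.sum) ∧ w = u ++ t)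
      (fun _ => 1) (sh (x 3) t.sum n) := fun t =>
    Bd.ite fun _ => Bd.map (φ := fun u => u ++ t) (List.append_left_injective t) fun s hs => by
      rw [sum_const, nsmul_eq_mul, mul_one, x]
      exact_mod_cast card_le_card hs
  have := (k0.or ((k [3]).or ((k [3, 1]).or (k [3, 2])))) (xs 3 n) fun w hw => by
    obtain ⟨h1, h2⟩ := mem_xs.1 hw
    rcases X_cases h1 with rfl | ⟨u, hu, rfl⟩ | ⟨u, hu, rfl⟩ | ⟨u, hu, rfl⟩
    · exact Or.inl ⟨h2.symm, rfl⟩
    all_goals rw [List.sum_append] at h2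
    · exact Or.inr (Or.inl ⟨by omega, u, mem_xs.2 ⟨hu, by omega⟩, rfl⟩)
    · exact Or.inr (Or.inr (Or.inl ⟨by omega, u, mem_xs.2 ⟨hu, by omega⟩, rfl⟩))
    · exact Or.inr (Or.inr (Or.inr ⟨by omega, u, mem_xs.2 ⟨hu, by omega⟩, rfl⟩))
  rwa [sum_const, nsmul_eq_mul, mul_one] at this

lemma sh_x (d n : ℕ) : sh (x 3) d n ≤
    sh δ d n + (sh (x 3) (d + 3) n + (sh (x 3) (d + 4) n + sh (x 3) (d + 5) n)) := by
  rw [← sh_sh, ← sh_sh, ← sh_sh]
  by_cases h : d ≤ n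
  · simp only [sh_pos h]
    exact x_three _
  · simp [sh_neg h]

/-- The surplus in depth three. -/
lemma surplus (n : ℕ) : Eh (x 3) n + (sh (x 3) 0 (n + 1) + sh (x 3) 2 (n + 1) +
    sh (x 3) 10 (n + 1) + sh (x 3) 11 (n + 1) + 2 * sh (x 3) 12 (n + 1) + 3 * sh (x 3) 13 (n + 1) +
    4 * sh (x 3) 14 (n + 1) + (7 * sh (Eh (x 3)) 15 (n + 1) + 9 * sh (Eh (x 3)) 16 (n + 1) +
    5 * sh (Eh (x 3)) 17 (n + 1))) ≤ Eh (x 3) (n + 1) +
    (sh δ 1 (n + 1) + sh δ 4 (n + 1) + sh δ 6 (n + 1) + sh δ 9 (n + 1)) := by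
  have e0 : sh (Eh (x 3)) 0 (n + 1) = Eh (x 3) (n + 1) := by simp [sh]
  have e1 : sh (Eh (x 3)) 1 (n + 1) = Eh (x 3) n := by simp [sh]
  have k := fun d => sh_Eh (x 3) d (n + 1)
  have l := fun d => sh_x d (n + 1)
  have := k 0; have := k 1; have := k 2; have := k 5; have := k 7; have := k 8; have := k 9
  have := k 10; have := k 11; have := k 12; have := k 13; have := k 14
  have := l 1; have := l 4; have := l 6; have := l 9
  norm_num at *
  linarith

lemma sh_geo {c : ℝ} (hc : 0 ≤ c) (d n : ℕ) :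
    sh (fun m => c * (200 / 151) ^ m) d n ≤ c * (200 / 151) ^ n * (151 / 200) ^ d := by
  unfold sh
  split_ifs with h
  · obtain ⟨m, rfl⟩ := Nat.exists_eq_add_of_le h
    simp only [Nat.add_sub_cancel_left, pow_add, div_pow]
    exact le_of_eq (by field_simp)
  · positivity

lemma sm_geo {c : ℝ} (hc : 0 ≤ c) (r n : ℕ) : ∀ k,
    sm (fun a => sh (fun m => c * (200 / 151) ^ m) (r + a) n) k ≤
      c * (200 / 151) ^ n * (151 / 200) ^ r * (151 / 49 * (1 - (151 / 200) ^ k))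
  | 0 => by simp [sm]
  | k + 1 => by
    refine (add_le_add (sm_geo hc r n k) (sh_geo hc (r + (k + 1)) n)).trans (le_of_eq ?_)
    ring

lemma big_front (hr : 19 ≤ r) {c : ℝ} (hc : 0 ≤ c) (h0 : ∀ m, 0 ≤ σ m)
    (h : ∀ m, σ m ≤ c * (200 / 151) ^ m) (n : ℕ) :
    Bd (fun w => Q r w ∧ w.sum ≤ n) (fun w => σ (n - w.sum))
      (c * (1021 / 1000) * (200 / 151) ^ n) := by
  refine front (V := fun m => c * (1021 / 1000) * (200 / 151) ^ m) (by omega) h0 (fun m => ?_) n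
  have hc' : 0 ≤ c * (1021 / 1000) := by positivity
  have k1 := sh_geo hc' r m
  have k2 := sm_geo hc' r m (r - 1)
  have k3 : (151 / 200 : ℝ) ^ r ≤ 49 / 10000 :=
    (pow_le_pow_of_le_one (by norm_num) (by norm_num) hr).trans (by norm_num)
  have k4 : (0 : ℝ) ≤ (151 / 200) ^ (r - 1) := by positivity
  have k5 : (0 : ℝ) ≤ (151 / 200) ^ r := by positivity
  have k6 : 0 ≤ c * (200 / 151 : ℝ) ^ m := by positivity
  have k7 : (151 / 200 : ℝ) ^ r * (1 + 151 / 49 * (1 - (151 / 200) ^ (r - 1))) ≤ 1 / 50 := by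
    nlinarith [mul_nonneg k4 k5]
  have k8 := mul_le_mul_of_nonneg_left k7 k6
  have := h m
  nlinarith

lemma D_big (hq : 20 ≤ q) (n : ℕ) : (D q n : ℝ) ≤ 1043 / 1000 * (200 / 151) ^ n := by
  have k1 : ∀ m, x q m ≤ 1 * (1021 / 1000) * (200 / 151) ^ m := fun m =>
    x_le (σ := δ) (by simp [δ]) (fun _ h => h.1) (big_front (by omega) zero_le_one δ_nonneg
      (fun m => by
        rw [one_mul]
        refine le_trans ?_ (one_le_pow₀ (by norm_num))
        unfold δ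
        split_ifs <;> norm_num) m)
  refine (D_le k1 (fun _ h => h.1) (big_front (c := 1 * (1021 / 1000)) (by omega) (by norm_num)
    (fun m => by positivity) (fun _ => le_rfl) n)).trans ?_
  exact mul_le_mul_of_nonneg_right (by norm_num) (by positivity)

end Pool.Agent.MP_0bb195_co.Sp
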