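import Mathlib.Data.Real.Basic
import Mathlib.Data.List.GetD
import Mathlib.Combinatorics.Enumerative.Composition
import Mathlib.Algebra.Order.BigOperators.Group.Finset
import Mathlib.Algebra.BigOperators.Group.Finset.Preimage
import Mathlib.Tactic.Linarith
import Mathlib.Tactic.Positivity

/-!
Words over `1, …, r` with isolated small letters: upper and lower bounds for weighted sums by
removing letters at the ends.
-/

namespace Pool.Agent.MP_0bb195_co.Sp

open Finset

/-- `f 1 + … + f k`. -/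
def sm {R : Type} [Add R] [Zero R] (f : ℕ → R) : ℕ → R
  | 0 => 0
  | k + 1 => sm f k + f (k + 1)

/-- Shift of a sequence. -/
noncomputable def sh (f : ℕ → ℝ) (d n : ℕ) : ℝ := if d ≤ n then f (n - d) else 0

/-- Every finite sum of `f` over words with `P` is at most `B`. -/
def Bd (P : List ℕ → Prop) (f : List ℕ → ℝ) (B : ℝ) : Prop :=
  ∀ t : Finset (List ℕ), (∀ w ∈ t, P w) → ∑ w ∈ t, f w ≤ B

/-- Some finite sum of `f` over words with `P` is at least `B`. -/
def Lw (P : List ℕ → Prop) (f : List ℕ → ℝ) (B : ℝ) : Prop :=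
  ∃ t : Finset (List ℕ), (∀ w ∈ t, P w) ∧ B ≤ ∑ w ∈ t, f w

variable {P P' : List ℕ → Prop} {f f' : List ℕ → ℝ} {B B' : ℝ}

lemma Bd.mono (h : Bd P' f B) (hP : ∀ w, P w → P' w) : Bd P f B :=
  fun t ht => h t fun w hw => hP w (ht w hw)

lemma Bd.le (h : Bd P f B) (hB : B ≤ B') : Bd P f B' := fun t ht => (h t ht).trans hB

lemma Bd.congr (h : Bd P f B) (e : ∀ w, P w → f' w = f w) : Bd P f' B := fun t ht => by
  rw [sum_congr rfl fun w hw => e w (ht w hw)]
  exact h t ht

lemma Bd.nonneg (h : Bd P f B) : 0 ≤ B := by simpa using h ∅ (by simp)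

lemma Bd.or (h : Bd P f B) (h' : Bd P' f B') : Bd (fun w => P w ∨ P' w) f (B + B') := by
  classical
  intro t ht
  rw [← sum_filter_add_sum_filter_not t P]
  exact add_le_add (h _ fun w hw => (mem_filter.1 hw).2)
    (h' _ fun w hw => (ht w (mem_filter.1 hw).1).resolve_left (mem_filter.1 hw).2)

lemma Bd.empty : Bd (fun _ => False) f 0 := fun t ht => by
  rw [eq_empty_of_forall_notMem fun w hw => ht w hw, sum_empty]

lemma Bd.single {w0 : List ℕ} (h : 0 ≤ f w0) : Bd (fun w => w = w0) f (f w0) := fun t ht => by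
  rcases subset_singleton_iff.1 (show t ⊆ {w0} from fun w hw => mem_singleton.2 (ht w hw)) with
    rfl | rfl
  · simpa using h
  · simp

lemma Bd.map {φ : List ℕ → List ℕ} (hφ : Function.Injective φ) (h : Bd P (fun u => f (φ u)) B) :
    Bd (fun w => ∃ u, P u ∧ w = φ u) f B := fun t ht => by
  rw [← sum_preimage φ t hφ.injOn f fun x hx hn => by
    obtain ⟨u, -, e⟩ := ht x hx
    exact absurd ⟨u, e.symm⟩ hn]
  refine h _ fun u hu => ?_
  obtain ⟨u', h1, h2⟩ := ht _ (mem_preimage.1 hu)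
  rwa [hφ h2]

lemma Bd.cond {c : Bool} (h : c = true → Bd P f B) :
    Bd (fun w => c = true ∧ P w) f (cond c B 0) := by
  cases c
  · exact Bd.empty.mono fun w hw => by simp at hw
  · exact (h rfl).mono fun w hw => hw.2

lemma Bd.ite {c : Prop} [Decidable c] (h : c → Bd P f B) :
    Bd (fun w => c ∧ P w) f (if c then B else 0) := by
  split_ifs with hc
  · exact (h hc).mono fun w hw => hw.2
  · exact Bd.empty.mono fun w hw => hc hw.1

lemma Bd.sm {C : ℕ → List ℕ → Prop} {b : ℕ → ℝ} : ∀ r : ℕ, (∀ i, 1 ≤ i → i ≤ r → Bd (C i) f (b i)) →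
    Bd (fun w => ∃ i, 1 ≤ i ∧ i ≤ r ∧ C i w) f (sm b r)
  | 0, _ => Bd.empty.mono fun w ⟨i, h1, h2, _⟩ => by omega
  | r + 1, h => ((Bd.sm r fun i h1 h2 => h i h1 (by omega)).or
      (h (r + 1) (by omega) le_rfl)).mono fun w ⟨i, h1, h2, h3⟩ => by
        by_cases e : i = r + 1
        · exact Or.inr (e ▸ h3)
        · exact Or.inl ⟨i, h1, by omega, h3⟩

lemma Lw.mono (h : Lw P' f B) (hP : ∀ w, P' w → P w) : Lw P f B :=
  let ⟨t, h1, h2⟩ := h
  ⟨t, fun w hw => hP w (h1 w hw), h2⟩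

lemma Lw.le (h : Lw P f B) (hB : B' ≤ B) : Lw P f B' :=
  let ⟨t, h1, h2⟩ := h
  ⟨t, h1, hB.trans h2⟩

lemma Lw.congr (h : Lw P f B) (e : ∀ w, P w → f' w = f w) : Lw P f' B := by
  obtain ⟨t, h1, h2⟩ := h
  exact ⟨t, h1, by rwa [sum_congr rfl fun w hw => e w (h1 w hw)]⟩

lemma Lw.or (h : Lw P f B) (h' : Lw P' f B') (d : ∀ w, P w → ¬ P' w) :
    Lw (fun w => P w ∨ P' w) f (B + B') := by
  obtain ⟨t, h1, h2⟩ := h
  obtain ⟨t', h3, h4⟩ := h'
  refine ⟨t ∪ t', fun w hw => (mem_union.1 hw).imp (h1 w) (h3 w), ?_⟩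
  rw [sum_union (disjoint_left.2 fun w a b => d w (h1 w a) (h3 w b))]
  exact add_le_add h2 h4

lemma Lw.single (w0 : List ℕ) : Lw (fun w => w = w0) f (f w0) :=
  ⟨{w0}, fun _ hw => mem_singleton.1 hw, by simp⟩

lemma Lw.map {φ : List ℕ → List ℕ} (hφ : Function.Injective φ) (h : Lw P (fun u => f (φ u)) B) :
    Lw (fun w => ∃ u, P u ∧ w = φ u) f B := by
  obtain ⟨t, h1, h2⟩ := h
  refine ⟨t.image φ, fun w hw => ?_, by rwa [sum_image hφ.injOn]⟩
  obtain ⟨u, hu, rfl⟩ := mem_image.1 hw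
  exact ⟨u, h1 u hu, rfl⟩

lemma Lw.ite {c : Prop} [Decidable c] (h : c → Lw P f B) : Lw P f (if c then B else 0) := by
  split_ifs with hc
  · exact h hc
  · exact ⟨∅, by simp, by simp⟩

/-- Words of positive letters with sum `n`. -/
def comp (n : ℕ) : Finset (List ℕ) := (univ : Finset (Composition n)).image Composition.blocks

lemma mem_comp {n : ℕ} {w : List ℕ} : w ∈ comp n ↔ (∀ x ∈ w, 0 < x) ∧ w.sum = n := by
  simp only [comp, mem_image, mem_univ, true_and]
  exact ⟨fun ⟨c, e⟩ => e ▸ ⟨fun _ hx => c.blocks_pos hx, c.blocks_sum⟩,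
    fun h => ⟨⟨w, fun hx => h.1 _ hx, h.2⟩, rfl⟩⟩

/-- Words of positive letters with sum at most `n`. -/
def cle (n : ℕ) : Finset (List ℕ) := (range (n + 1)).biUnion comp

lemma mem_cle {n : ℕ} {w : List ℕ} : w ∈ cle n ↔ (∀ x ∈ w, 0 < x) ∧ w.sum ≤ n := by
  simp only [cle, mem_biUnion, mem_range, mem_comp]
  exact ⟨fun ⟨i, h1, h2, h3⟩ => ⟨h2, by omega⟩, fun h => ⟨_, by omega, h.1, rfl⟩⟩

/-- Letters in `1, …, r`, and no two neighbours below `r`. -/
structure Is (r : ℕ) (w : List ℕ) : Prop where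
  lt : ∀ i, i < w.length → 1 ≤ w.getD i 0 ∧ w.getD i 0 ≤ r
  adj : ∀ i, i + 1 < w.length → w.getD i 0 = r ∨ w.getD (i + 1) 0 = r

/-- As `Is`, and the first letter is `r`. -/
def Q (r : ℕ) (w : List ℕ) : Prop := Is r w ∧ (0 < w.length → w.getD 0 0 = r)

/-- Letters in mirror positions add up to at least `r`. -/
def Sym (r : ℕ) (w : List ℕ) : Prop :=
  ∀ i j, i + j + 1 = w.length → r ≤ w.getD i 0 + w.getD j 0

variable {r n : ℕ} {w : List ℕ}

lemma Is.pos (h : Is r w) : ∀ x ∈ w, 0 < x := fun x hx => by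
  obtain ⟨i, hi, rfl⟩ := List.getElem_of_mem hx
  have := (h.lt i hi).1
  rwa [List.getD_eq_getElem _ _ hi] at this

lemma Is.tail {a : ℕ} (h : Is r (a :: w)) : Is r w :=
  ⟨fun i hi => by simpa using h.lt (i + 1) (by simpa using hi),
    fun i hi => by simpa using h.adj (i + 1) (by simpa using hi)⟩

lemma Is.left {t : List ℕ} (h : Is r (w ++ t)) : Is r w :=
  ⟨fun i hi => by
    have := h.lt i (by rw [List.length_append]; omega)
    rwa [List.getD_append _ _ _ _ hi] at this,
  fun i hi => by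
    have := h.adj i (by rw [List.length_append]; omega)
    rwa [List.getD_append _ _ _ _ hi, List.getD_append _ _ _ _ (by omega)] at this⟩

lemma Is.cons {a : ℕ} (h : Is r w) (h1 : 1 ≤ a) (h2 : a ≤ r)
    (h3 : a = r ∨ (0 < w.length → w.getD 0 0 = r)) : Is r (a :: w) :=
  ⟨fun i hi => by
    cases i with
    | zero => simpa using ⟨h1, h2⟩
    | succ i => simpa using h.lt i (by simpa using hi),
  fun i hi => by
    cases i with
    | zero => simpa using h3.imp id fun k => by simpa using k (by simpa using hi)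
    | succ i => simpa using h.adj i (by simpa using hi)⟩

lemma Q_nil : Q r [] := ⟨⟨by simp, by simp⟩, by simp⟩

lemma Q.one (h : Q r w) (hr : 1 ≤ r) : Q r (r :: w) := ⟨h.1.cons hr le_rfl (Or.inl rfl), by simp⟩

lemma Q.two {a : ℕ} (h : Q r w) (h1 : 1 ≤ a) (h2 : a ≤ r) : Q r (r :: a :: w) :=
  ⟨(h.1.cons h1 h2 (Or.inr h.2)).cons (by omega) le_rfl (Or.inl rfl), by simp⟩

lemma Q.cases (h : Q r w) : w = [] ∨ (∃ u, Q r u ∧ w = r :: u) ∨
    ∃ a, 1 ≤ a ∧ a ≤ r - 1 ∧ ∃ u, Q r u ∧ w = r :: a :: u := by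
  match w, h with
  | [], _ => exact Or.inl rfl
  | [a], h =>
    obtain rfl : a = r := by simpa using h.2
    exact Or.inr (Or.inl ⟨[], Q_nil, rfl⟩)
  | a :: b :: u, h =>
    obtain rfl : a = r := by simpa using h.2
    by_cases e : b = a
    · exact Or.inr (Or.inl ⟨b :: u, ⟨h.1.tail, fun _ => by simpa using e⟩, rfl⟩)
    have k := h.1.lt 1 (by simp)
    simp only [List.getD_cons_succ, List.getD_cons_zero] at k
    refine Or.inr (Or.inr ⟨b, k.1, by omega, u, ⟨h.1.tail.tail, fun hu => ?_⟩, rfl⟩)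
    have := h.1.tail.adj 0 (by simpa using hu)
    simp only [List.getD_cons_succ, List.getD_cons_zero] at this
    exact this.resolve_left e

/-- Upper bound by removing the first block. -/
theorem front (hr : 1 ≤ r) {σ V : ℕ → ℝ} (hσ : ∀ n, 0 ≤ σ n)
    (hV : ∀ n, σ n + (sh V r n + sm (fun a => sh V (r + a) n) (r - 1)) ≤ V n) (n : ℕ) :
    Bd (fun w => Q r w ∧ w.sum ≤ n) (fun w => σ (n - w.sum)) (V n) := by
  induction n using Nat.strong_induction_on with
  | _ n ih =>
  have k0 : Bd (fun w => w = []) (fun w => σ (n - w.sum)) (σ n) :=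
    Bd.single (w0 := []) (f := fun w => σ (n - w.sum)) (hσ _)
  have k1 : Bd (fun w => r ≤ n ∧ ∃ u, (Q r u ∧ u.sum ≤ n - r) ∧ w = r :: u)
      (fun w => σ (n - w.sum)) (sh V r n) :=
    Bd.ite fun h => Bd.map (List.cons_injective (a := r))
      ((ih (n - r) (by omega)).congr fun u _ => by rw [List.sum_cons, Nat.sub_sub])
  have k2 := Bd.sm (f := fun w => σ (n - w.sum)) (b := fun a => sh V (r + a) n)
    (C := fun a w => r + a ≤ n ∧ ∃ u, (Q r u ∧ u.sum ≤ n - (r + a)) ∧ w = r :: a :: u) (r - 1)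
    fun a _ _ => Bd.ite fun h => Bd.map (φ := fun u => r :: a :: u) (fun u v e => by simpa using e)
      ((ih (n - (r + a)) (by omega)).congr fun u _ => by
        rw [List.sum_cons, List.sum_cons, Nat.sub_sub, add_assoc])
  refine ((k0.or (k1.or k2)).le (hV n)).mono fun w hw => ?_
  have hs := hw.2
  rcases hw.1.cases with e | ⟨u, h1, rfl⟩ | ⟨a, h1, h2, u, h3, rfl⟩
  · exact Or.inl e
  · rw [List.sum_cons] at hs
    exact Or.inr (Or.inl ⟨by omega, u, ⟨h1, by omega⟩, rfl⟩)
  · rw [List.sum_cons, List.sum_cons] at hs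
    exact Or.inr (Or.inr ⟨a, h1, h2, by omega, u, ⟨h3, by omega⟩, rfl⟩)

/-- Lower bound by adding a first block. -/
theorem back {a : ℕ} (h1 : 1 ≤ a) (h2 : a < r) {σ L : ℕ → ℝ} (N : ℕ)
    (hL : ∀ n, n ≤ N → L n ≤ σ n + (sh L r n + sh L (r + a) n)) (n : ℕ) (hn : n ≤ N) :
    Lw (fun w => (Q r w ∧ ∀ x ∈ w, x = r ∨ x = a) ∧ w.sum ≤ n) (fun w => σ (n - w.sum))
      (L n) := by
  induction n using Nat.strong_induction_on with
  | _ n ih =>
  have k0 : Lw (fun w => w = []) (fun w => σ (n - w.sum)) (σ n) :=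
    Lw.single (f := fun w => σ (n - w.sum)) []
  have k1 : Lw (fun w => ∃ u, ((Q r u ∧ ∀ x ∈ u, x = r ∨ x = a) ∧ u.sum + r ≤ n) ∧ w = r :: u)
      (fun w => σ (n - w.sum)) (sh L r n) :=
    Lw.ite fun h => Lw.map (List.cons_injective (a := r))
      (((ih (n - r) (by omega) (by omega)).mono fun u hu => ⟨hu.1, by omega⟩).congr
        fun u _ => by rw [List.sum_cons, Nat.sub_sub])
  have k2 : Lw (fun w => ∃ u, ((Q r u ∧ ∀ x ∈ u, x = r ∨ x = a) ∧ u.sum + (r + a) ≤ n) ∧
      w = r :: a :: u) (fun w => σ (n - w.sum)) (sh L (r + a) n) :=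
    Lw.ite fun h => Lw.map (φ := fun u => r :: a :: u) (fun u v e => by simpa using e)
      (((ih (n - (r + a)) (by omega) (by omega)).mono fun u hu => ⟨hu.1, by omega⟩).congr
        fun u _ => by rw [List.sum_cons, List.sum_cons, Nat.sub_sub, add_assoc])
  refine ((k0.or (k1.or k2 ?_) ?_).le (hL n hn)).mono ?_
  · rintro w ⟨u, hu, rfl⟩ ⟨v, -, e⟩
    obtain rfl : u = a :: v := by simpa using e
    have : a = r := by simpa using hu.1.1.2
    omega
  · rintro w rfl (⟨u, -, e⟩ | ⟨u, -, e⟩) <;> simp at e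
  · rintro w (rfl | ⟨u, hu, rfl⟩ | ⟨u, hu, rfl⟩)
    · exact ⟨⟨Q_nil, by simp⟩, by simp⟩
    · refine ⟨⟨hu.1.1.one (by omega), fun x hx => ?_⟩, by rw [List.sum_cons]; omega⟩
      rcases List.mem_cons.1 hx with e | e
      · exact Or.inl e
      · exact hu.1.2 x e
    · refine ⟨⟨hu.1.1.two h1 h2.le, fun x hx => ?_⟩, by rw [List.sum_cons, List.sum_cons]; omega⟩
      rcases List.mem_cons.1 hx with e | e
      · exact Or.inl e
      rcases List.mem_cons.1 e with e | e
      · exact Or.inr e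
      · exact hu.1.2 x e

/-- Words folded in the middle; `l` and `rr` say that the outer neighbours are below `r`. -/
structure Ok (r : ℕ) (l rr : Bool) (w : List ℕ) : Prop where
  is : Is r w
  sym : Sym r w
  fst : l = true → 0 < w.length → w.getD 0 0 = r
  lst : rr = true → ∀ i, i + 1 = w.length → w.getD i 0 = r
  emp : w.length = 0 → (l && rr) = false

/-- One step of the transfer recursion for folded words. -/
def rhs {R : Type} [Add R] [Zero R] (r : ℕ) (σ : ℕ → R) (V : Bool → Bool → ℕ → R) (l rr : Bool)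
    (n : ℕ) : R :=
  cond (!(l && rr)) (σ n) 0 +
  (sm (fun k => cond (Nat.ble r (2 * k) && Nat.ble k n && (Nat.ble r k || !(l || rr)))
    (σ (n - k)) 0) r +
  sm (fun a => cond (Nat.ble r a || !l)
    (sm (fun b => cond ((Nat.ble r b || !rr) && Nat.ble r (a + b) && Nat.ble (a + b) n)
      (V (!(Nat.ble r a)) (!(Nat.ble r b)) (n - (a + b))) 0) r) 0) r)

lemma getD_wrap {a b i : ℕ} {u : List ℕ} (h : i < u.length) :
    (a :: (u ++ [b])).getD (i + 1) 0 = u.getD i 0 := by
  rw [List.getD_cons_succ, List.getD_append _ _ _ _ h]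

lemma getD_last {a b : ℕ} {u : List ℕ} : (a :: (u ++ [b])).getD (u.length + 1) 0 = b := by
  rw [List.getD_cons_succ, List.getD_append_right _ _ _ _ le_rfl]
  simp

lemma Ok.inner {l rr : Bool} {a b : ℕ} {u : List ℕ} (h : Ok r l rr (a :: (u ++ [b]))) :
    Ok r (!(Nat.ble r a)) (!(Nat.ble r b)) u := by
  have len : (a :: (u ++ [b])).length = u.length + 2 := by simp
  refine ⟨h.is.tail.left, fun i j e => ?_, fun k hu => ?_, fun k i hi => ?_, fun e => ?_⟩
  · have := h.sym (i + 1) (j + 1) (by omega)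
    rwa [getD_wrap (by omega), getD_wrap (by omega)] at this
  · have k' : ¬ r ≤ a := by simpa [← Nat.ble_eq] using k
    have := h.is.adj 0 (by omega)
    rw [getD_wrap hu, List.getD_cons_zero] at this
    omega
  · have k' : ¬ r ≤ b := by simpa [← Nat.ble_eq] using k
    have := h.is.adj (i + 1) (by omega)
    rw [getD_wrap (by omega), hi, getD_last] at this
    omega
  · obtain rfl := List.length_eq_zero_iff.1 e
    have := h.is.adj 0 (by omega)
    simp only [List.nil_append, List.getD_cons_zero, List.getD_cons_succ] at this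
    rcases this with e | e <;> simp [e]

/-- Upper bound by removing the first and the last letter. -/
theorem fold {σ : ℕ → ℝ} {V : Bool → Bool → ℕ → ℝ} (hσ : ∀ n, 0 ≤ σ n)
    (hV : ∀ l rr n, rhs r σ V l rr n ≤ V l rr n) (n : ℕ) : ∀ l rr,
    Bd (fun w => Ok r l rr w ∧ w.sum ≤ n) (fun w => σ (n - w.sum)) (V l rr n) := by
  induction n using Nat.strong_induction_on with
  | _ n ih =>
  intro l rr
  have k0 := Bd.cond (c := !(l && rr)) fun _ =>
    Bd.single (w0 := []) (f := fun w => σ (n - w.sum)) (hσ _)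
  have k1 := Bd.sm (f := fun w => σ (n - w.sum)) r fun k _ _ =>
    Bd.cond (c := Nat.ble r (2 * k) && Nat.ble k n && (Nat.ble r k || !(l || rr))) fun _ =>
      (Bd.single (w0 := [k]) (f := fun w => σ (n - w.sum)) (hσ _)).le
        (B' := σ (n - k)) (by simp)
  have k2 := Bd.sm (f := fun w => σ (n - w.sum)) r fun a ha _ =>
    Bd.cond (c := Nat.ble r a || !l) fun _ => Bd.sm r fun b _ _ =>
      Bd.cond (c := (Nat.ble r b || !rr) && Nat.ble r (a + b) && Nat.ble (a + b) n) fun h =>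
        Bd.map (f := fun w => σ (n - w.sum)) (φ := fun u => a :: (u ++ [b]))
          (fun u v e => by simpa using e)
          ((ih (n - (a + b)) (by simp at h; omega) (!(Nat.ble r a)) (!(Nat.ble r b))).congr
            fun u _ => by
              congr 1
              simp only [List.sum_cons, List.sum_append, List.sum_nil]
              omega)
  refine ((k0.or (k1.or k2)).le (hV l rr n)).mono fun w hw => ?_
  obtain ⟨h, hs⟩ := hw
  match w, h, hs with
  | [], h, _ => exact Or.inl ⟨by rw [h.emp rfl]; rfl, rfl⟩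
  | a :: t, h, hs =>
    have ha := h.is.lt 0 (by simp)
    have f1 := fun k => h.fst k (by simp)
    rw [List.getD_cons_zero] at ha f1
    rcases List.eq_nil_or_concat' t with rfl | ⟨u, b, rfl⟩
    · have s := h.sym 0 0 rfl
      have f2 := fun k => h.lst k 0 rfl
      rw [List.getD_cons_zero] at s f2
      refine Or.inr (Or.inl ⟨a, ha.1, ha.2, ?_, rfl⟩)
      simp only [List.sum_cons, List.sum_nil] at hs
      cases l <;> cases rr <;> simp at f1 f2 ⊢ <;> omega
    · have len : (a :: (u ++ [b])).length = u.length + 2 := by simp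
      have hb := h.is.lt (u.length + 1) (by omega)
      have s := h.sym 0 (u.length + 1) (by omega)
      have f2 := fun k => h.lst k (u.length + 1) (by omega)
      rw [getD_last] at hb s f2
      rw [List.getD_cons_zero] at s
      simp only [List.sum_cons, List.sum_append, List.sum_nil] at hs
      refine Or.inr (Or.inr ⟨a, ha.1, ha.2, ?_, b, hb.1, hb.2, ?_, u, ⟨h.inner, by omega⟩, rfl⟩)
      · cases l <;> simp at f1 ⊢ <;> omega
      · cases rr <;> simp at f2 ⊢ <;> omega

lemma Q.ok (h : Q r w) (s : Sym r w) : Ok r true false w :=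
  ⟨h.1, s, fun _ => h.2, fun k => by simp at k, fun _ => rfl⟩

end Pool.Agent.MP_0bb195_co.Sp
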