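import Pool.Agent.MP_0bb195_co.Rest
import Pool.Agent.MP_0bb195_co.sp.Words

/-!
Gapsets with largest difference two and their Kunz words, cut at the residue of the largest gap.
-/

namespace Pool.Agent.MP_0bb195_co.Sp

open Finset Gap

/-- Two letters `1` do not point to a letter `3`. -/
def Val (u : List ℕ) : Prop := ∀ a b, u.getD a 0 = 1 → u.getD b 0 = 1 →
  a + b + 1 ≠ u.length ∧ u.getD (a + b + 1) 0 ≠ 3

/-- Conditions on the part of the word before the cut. -/
def X (q : ℕ) (u : List ℕ) : Prop := Q q u ∧ (q = 3 → Val u) ∧ (4 ≤ q → Sym q u)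

/-- Conditions on the reversed part of the word after the cut. -/
def Y (q : ℕ) (v : List ℕ) : Prop := Q (q - 1) v ∧ (4 ≤ q → Sym (q - 1) v)

open Classical in
/-- First parts of sum `n`. -/
noncomputable def xs (q n : ℕ) : Finset (List ℕ) := (comp n).filter (X q)

open Classical in
/-- Second parts of sum at most `n`. -/
noncomputable def ys (q n : ℕ) : Finset (List ℕ) := (cle n).filter (Y q)

/-- The number of pairs of total sum `n`. -/
noncomputable def D (q n : ℕ) : ℕ := ∑ v ∈ ys q n, (xs q (n - v.sum)).card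

/-- Triples. -/
noncomputable def tr (I : Finset ℕ) (g : ℕ) : Finset (Σ _ : ℕ, Σ _ : List ℕ, List ℕ) :=
  I.sigma fun q => (ys q (g - q)).sigma fun v => xs q (g - q - v.sum)

lemma card_tr (I : Finset ℕ) (g : ℕ) : (tr I g).card = ∑ q ∈ I, D q (g - q) := by
  simp only [tr, card_sigma, D]

lemma mem_xs {q n : ℕ} {u : List ℕ} : u ∈ xs q n ↔ X q u ∧ u.sum = n := by
  classical
  simp only [xs, mem_filter, mem_comp]
  exact ⟨fun h => ⟨h.2, h.1.2⟩, fun h => ⟨⟨h.1.1.1.pos, h.2⟩, h.1⟩⟩

lemma mem_ys {q n : ℕ} {v : List ℕ} : v ∈ ys q n ↔ Y q v ∧ v.sum ≤ n := by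
  classical
  simp only [ys, mem_filter, mem_cle]
  exact ⟨fun h => ⟨h.2, h.1.2⟩, fun h => ⟨⟨h.1.1.1.pos, h.2⟩, h.1⟩⟩

/-- The Kunz coordinates of a triple. -/
def wd (q : ℕ) (u v : List ℕ) (i : ℕ) : ℕ :=
  if i = 0 then 0 else if i ≤ u.length then u.getD (i - 1) 0 else if i = u.length + 1 then q
  else v.getD (u.length + v.length + 1 - i) 0

variable {q g m F : ℕ} {u v : List ℕ} {G : Finset ℕ}

lemma wd_zero : wd q u v 0 = 0 := if_pos rfl

lemma wd_u {i : ℕ} (h : i < u.length) : wd q u v (i + 1) = u.getD i 0 := by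
  rw [wd, if_neg (by omega), if_pos (by omega), Nat.add_sub_cancel]

lemma wd_j : wd q u v (u.length + 1) = q := by
  rw [wd, if_neg (by omega), if_neg (by omega), if_pos rfl]

lemma wd_v {i t : ℕ} (h : t < v.length) (e : i + t = u.length + v.length + 1) :
    wd q u v i = v.getD t 0 := by
  rw [wd, if_neg (by omega), if_neg (by omega), if_neg (by omega)]
  congr 1
  omega

lemma sum_getD : ∀ u : List ℕ, ∑ i ∈ range u.length, u.getD i 0 = u.sum
  | [] => by simp
  | a :: u => by
    rw [List.length_cons, sum_range_succ', List.sum_cons, ← sum_getD u, add_comm]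
    simp only [List.getD_cons_succ, List.getD_cons_zero]

lemma sum_wd : ∑ i ∈ range (u.length + v.length + 2), wd q u v i = u.sum + q + v.sum := by
  rw [show u.length + v.length + 2 = (u.length + 1 + 1) + v.length by omega, sum_range_add,
    sum_range_succ, sum_range_succ', wd_zero, wd_j, ← sum_getD u, ← sum_getD v,
    ← sum_range_reflect (fun t => v.getD t 0), sum_congr rfl fun i hi => wd_u (mem_range.1 hi)]
  congr 1
  exact sum_congr rfl fun i hi => by
    have := mem_range.1 hi
    exact wd_v (by omega) (by omega)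

lemma card_eq {k : ℕ → ℕ} (hm : 0 < m) (h : ∀ i, i < m → ∀ s, i + m * s ∈ G ↔ s < k i) :
    G.card = ∑ i ∈ range m, k i := by
  have e : ((range m).sigma fun i => range (k i)).card = G.card := by
    refine card_nbij (fun p => p.1 + m * p.2) (fun p hp => ?_) ?_ fun z hz => ?_
    · have := mem_sigma.1 (mem_coe.1 hp)
      exact mem_coe.2 ((h _ (mem_range.1 this.1) _).2 (mem_range.1 this.2))
    · rintro ⟨i, j⟩ hp ⟨i', j'⟩ hp' e
      have h1 := mem_range.1 (mem_sigma.1 (mem_coe.1 hp)).1
      have h2 := mem_range.1 (mem_sigma.1 (mem_coe.1 hp')).1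
      simp only at e h1 h2
      have e1 := congrArg (· % m) e
      simp only [Nat.add_mul_mod_self_left, Nat.mod_eq_of_lt h1, Nat.mod_eq_of_lt h2] at e1
      subst e1
      have e2 : j = j' := Nat.eq_of_mul_eq_mul_left hm (by omega)
      rw [e2]
    · refine ⟨⟨z % m, z / m⟩, mem_coe.2 (mem_sigma.2 ⟨mem_range.2 (Nat.mod_lt _ hm),
        mem_range.2 ((h _ (Nat.mod_lt _ hm) _).1 ?_)⟩), Nat.mod_add_div z m⟩
      rw [Nat.mod_add_div]
      exact mem_coe.1 hz
  rw [← e, card_sigma, sum_congr rfl fun i _ => card_range _]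

/-- `G` has the Kunz coordinates of the triple. -/
def R (G : Finset ℕ) (t : Σ _ : ℕ, Σ _ : List ℕ, List ℕ) : Prop :=
  IsMult G (t.2.2.length + t.2.1.length + 2) ∧ ∀ i, i < t.2.2.length + t.2.1.length + 2 → ∀ s,
    i + (t.2.2.length + t.2.1.length + 2) * s ∈ G ↔ s < wd t.1 t.2.2 t.2.1 i

lemma R_left {G' : Finset ℕ} {t : Σ _ : ℕ, Σ _ : List ℕ, List ℕ} (h : R G t) (h' : R G' t) :
    G = G' := by
  ext z
  have hm := h.1.1
  rw [← Nat.mod_add_div z (t.2.2.length + t.2.1.length + 2), h.2 _ (Nat.mod_lt _ hm),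
    h'.2 _ (Nat.mod_lt _ hm)]

lemma wd_le (hu : Is q u) (hv : Is (q - 1) v) {i : ℕ} (hi : i < u.length + v.length + 2) :
    (0 < i → 1 ≤ q → 1 ≤ wd q u v i) ∧ wd q u v i ≤ q ∧
      (u.length + 1 < i → wd q u v i ≤ q - 1) := by
  rcases Nat.eq_zero_or_pos i with rfl | h0
  · rw [wd_zero]; omega
  obtain ⟨i, rfl⟩ : ∃ j, i = j + 1 := ⟨i - 1, by omega⟩
  rcases lt_trichotomy i u.length with h | rfl | h
  · have := hu.lt i h
    rw [wd_u h]; omega
  · rw [wd_j]; omega
  · have := hv.lt (u.length + v.length - i) (by omega)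
    rw [wd_v (t := u.length + v.length - i) (by omega) (by omega)]; omega

lemma ext_getD {u u' : List ℕ} (e : u.length = u'.length)
    (h : ∀ i, i < u.length → u.getD i 0 = u'.getD i 0) : u = u' :=
  List.ext_getElem e fun i h1 h2 => by
    have := h i h1
    rwa [List.getD_eq_getElem _ _ h1, List.getD_eq_getElem _ _ h2] at this

lemma R_right {q' : ℕ} {u' v' : List ℕ} (hq : 1 ≤ q) (hq' : 1 ≤ q') (hu : Is q u)
    (hv : Is (q - 1) v) (hu' : Is q' u') (hv' : Is (q' - 1) v') (h : R G ⟨q, v, u⟩)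
    (h' : R G ⟨q', v', u'⟩) : q = q' ∧ u = u' ∧ v = v' := by
  have em : u.length + v.length + 2 = u'.length + v'.length + 2 := mult_unique h.1 h'.1
  have e : ∀ i, i < u.length + v.length + 2 → wd q u v i = wd q' u' v' i := fun i hi =>
    eq_of_forall_lt_iff fun s => (h.2 i hi s).symm.trans (by
      have := h'.2 i (by simpa only [← em] using hi) s
      simpa only [← em] using this)
  have k1 := e (u.length + 1) (by omega)
  have k2 := e (u'.length + 1) (by omega)
  have k3 := wd_le hu' hv' (i := u.length + 1) (by omega)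
  have k4 := wd_le hu hv (i := u'.length + 1) (by omega)
  rw [wd_j] at k1 k2
  obtain rfl : q = q' := by omega
  have el : u.length = u'.length := by omega
  refine ⟨rfl, ext_getD el fun i hi => ?_, ext_getD (by omega) fun t ht => ?_⟩
  · rw [← wd_u (q := q) (v := v) hi, e _ (by omega), wd_u (by omega)]
  · rw [← wd_v (q := q) (u := u) (i := u.length + v.length + 1 - t) ht (by omega), e _ (by omega),
      wd_v (t := t) (by omega) (by omega)]

lemma getD_map_range {f : ℕ → ℕ} {n i : ℕ} (h : i < n) :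
    ((List.range n).map f).getD i 0 = f i := by
  rw [List.getD_eq_getElem _ _ (by simpa using h)]
  simp

/-- Every gapset with largest difference two has a triple. -/
theorem exists_tr (hG : Mem 2 g G) : ∃ t ∈ tr (Icc 2 g) g, R G t := by
  obtain ⟨m, hm⟩ := exists_mult G
  obtain ⟨a0, b0, hp, hpe⟩ := hG.2.2.2
  obtain ⟨F, hF⟩ := exists_top ⟨a0, hp.1⟩
  have hm0 := hm.1
  have hmF : m < F := by
    have k1 := hF.2 _ hp.2.1
    by_contra hlt
    exact hp.2.2.2 (a0 + 1) (hm.2.2 _ (by omega) (by omega)) ⟨by omega, by omega⟩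
  have kz_iff := mem_iff_lt_kz hG.1 hm
  obtain ⟨p, j, hj, eF⟩ : ∃ p j, j < m ∧ F = j + m * (p + 1) := by
    refine ⟨F / m - 1, F % m, Nat.mod_lt _ hm0, ?_⟩
    have : 0 < F / m := Nat.div_pos hmF.le hm0
    rw [show F / m - 1 + 1 = F / m by omega, Nat.mod_add_div]
  have k0 : ∀ s, m * s ∉ G := fun s h => add_mul_notMem hG.1 hm.2.1 hG.1.1 s (by simpa using h)
  have hj0 : 0 < j := Nat.pos_of_ne_zero fun e => k0 (p + 1) (by
    have := hF.1
    rwa [eF, e, zero_add] at this)
  have e1 : m * (p + 1) = m * p + m := by ring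
  have e2 : m * (p + 2) = m * p + 2 * m := by ring
  have kz0 : kz G m 0 = 0 := Nat.le_zero.1 (kz_le (by simpa using hG.1.1))
  have lo : ∀ i, 0 < i → i < m → 1 ≤ kz G m i := fun i h1 h2 =>
    (kz_iff i 0).1 (hm.2.2 _ (by omega) (by omega))
  have up : ∀ i, kz G m i ≤ p + 2 := fun i => kz_le fun h => by have := hF.2 _ h; omega
  have up' : ∀ i, j < i → kz G m i ≤ p + 1 := fun i hi =>
    kz_le fun h => by have := hF.2 _ h; omega
  have kj : kz G m j = p + 2 := le_antisymm (up j) ((kz_iff j (p + 1)).1 (eF ▸ hF.1))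
  have adj : ∀ i s, 0 < i + m * s → i + 1 + m * s ≤ F → s < kz G m i ∨ s < kz G m (i + 1) :=
    fun i s h1 h2 => by
      obtain ⟨z, hz, z1, z2⟩ := window hG.1 hG.2.2.1 hF.1 (y := i + m * s) (by omega) h1 (by omega)
      rw [← kz_iff, ← kz_iff]
      rcases (by omega : z = i + m * s ∨ z = i + 1 + m * s) with e | e
      · exact Or.inl (e ▸ hz)
      · exact Or.inr (e ▸ hz)
  have kzm : kz G m m ≤ p := by
    rcases Nat.eq_zero_or_pos p with rfl | _
    · exact kz_le (by simpa using hm.2.1)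
    · exact kz_le (by rw [show m + m * p = m * (p + 1) by omega]; exact k0 _)
  set u := (List.range (j - 1)).map fun i => kz G m (i + 1) with hu
  set v := (List.range (m - 1 - j)).map fun t => kz G m (m - 1 - t) with hv
  have lu : u.length = j - 1 := by simp [hu]
  have lv : v.length = m - 1 - j := by simp [hv]
  have gu : ∀ i, i < u.length → u.getD i 0 = kz G m (i + 1) := fun i hi =>
    getD_map_range (by omega)
  have gv : ∀ t, t < v.length → v.getD t 0 = kz G m (m - 1 - t) := fun t ht =>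
    getD_map_range (by omega)
  have em : u.length + v.length + 2 = m := by omega
  have ew : ∀ i, i < m → wd (p + 2) u v i = kz G m i := fun i hi => by
    rcases Nat.eq_zero_or_pos i with rfl | h0
    · rw [wd_zero, kz0]
    obtain ⟨i, rfl⟩ : ∃ j, i = j + 1 := ⟨i - 1, by omega⟩
    rcases lt_trichotomy i u.length with h | h | h
    · rw [wd_u h, gu i h]
    · rw [h, wd_j, show u.length + 1 = j by omega, kj]
    · rw [wd_v (t := m - 1 - (i + 1)) (by omega) (by omega), gv _ (by omega)]
      congr 1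
      omega
  have hR : R G ⟨p + 2, v, u⟩ := ⟨by simpa only [em] using hm, fun i hi s => by
    simp only [em] at hi ⊢
    rw [ew i hi, kz_iff]⟩
  have hs : u.sum + (p + 2) + v.sum = g := by
    rw [← sum_wd, ← hG.2.1, card_eq (by omega) hR.2]
  have hX : X (p + 2) u := by
    refine ⟨⟨⟨fun i hi => ?_, fun i hi => ?_⟩, fun h => ?_⟩, fun e a b ha hb => ?_,
      fun _ a b e => ?_⟩
    · rw [gu i hi]
      exact ⟨lo _ (by omega) (by omega), up _⟩
    · rw [gu i (by omega), gu _ hi]
      have := adj (i + 1) (p + 1) (by omega) (by omega)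
      have := up (i + 1)
      have := up (i + 1 + 1)
      omega
    · rw [gu 0 h]
      have := adj 0 (p + 1) (by omega) (by omega)
      have := up (0 + 1)
      omega
    · have la : a < u.length := not_le.1 fun h => by
        rw [List.getD_eq_default _ _ h] at ha; omega
      have lb : b < u.length := not_le.1 fun h => by
        rw [List.getD_eq_default _ _ h] at hb; omega
      rw [gu a la] at ha
      rw [gu b lb] at hb
      have key : kz G m (a + 1 + (b + 1)) ≠ 3 := fun h => by
        have := kz_pair hG.1 hm ((kz_iff (a + 1 + (b + 1)) 2).2 (by omega))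
        omega
      refine ⟨fun h => key (by rw [show a + 1 + (b + 1) = j by omega, kj, e]), fun h => ?_⟩
      have lc : a + b + 1 < u.length := not_le.1 fun h' => by
        rw [List.getD_eq_default _ _ h'] at h; omega
      rw [gu _ lc] at h
      exact key (by rwa [show a + 1 + (b + 1) = a + b + 1 + 1 by omega])
    · rw [gu a (by omega), gu b (by omega)]
      exact kz_pair hG.1 hm (t := p + 1)
        (by rw [show a + 1 + (b + 1) + m * (p + 1) = F by omega]; exact hF.1)
  have hY : Y (p + 2) v := by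
    refine ⟨⟨⟨fun i hi => ?_, fun i hi => ?_⟩, fun h => ?_⟩, fun _ a b e => ?_⟩
    · rw [gv i hi]
      exact ⟨lo _ (by omega) (by omega), up' _ (by omega)⟩
    · rw [gv i (by omega), gv _ hi]
      have := adj (m - 1 - (i + 1)) p (by omega) (by omega)
      rw [show m - 1 - (i + 1) + 1 = m - 1 - i by omega] at this
      have := up' (m - 1 - i) (by omega)
      have := up' (m - 1 - (i + 1)) (by omega)
      omega
    · rw [gv 0 h]
      have := adj (m - 1 - 0) p (by omega) (by omega)
      rw [show m - 1 - 0 + 1 = m by omega] at this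
      have := up' (m - 1 - 0) (by omega)
      omega
    · rw [gv a (by omega), gv b (by omega)]
      exact kz_pair hG.1 hm (t := p)
        (by rw [show m - 1 - a + (m - 1 - b) + m * p = F by omega]; exact hF.1)
  exact ⟨⟨p + 2, v, u⟩, mem_sigma.2 ⟨mem_Icc.2 ⟨by simp, by simp only; omega⟩, mem_sigma.2
    ⟨mem_ys.2 ⟨hY, by simp only; omega⟩, mem_xs.2 ⟨hX, by simp only; omega⟩⟩⟩, hR⟩

theorem upper (g : ℕ) : (fam 2 g).card ≤ ∑ q ∈ Icc 2 g, D q (g - q) := by
  rw [← card_tr]
  exact card_le_card_of_forall_subsingleton R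
    (fun G hG => by simpa only [and_comm] using exists_tr (mem_fam.1 hG))
    fun t _ G hG G' hG' => R_left hG.2 hG'.2

lemma wd_adj (hu : Q q u) (hv : Q (q - 1) v) {i : ℕ}
    (hi : i + 1 < u.length + v.length + 2) :
    (i ≤ u.length → wd q u v i = q ∨ wd q u v (i + 1) = q) ∧
      (u.length + 1 < i → wd q u v i = q - 1 ∨ wd q u v (i + 1) = q - 1) := by
  refine ⟨fun h => ?_, fun h => ?_⟩
  · rcases h.lt_or_eq with h | rfl
    · rcases Nat.eq_zero_or_pos i with rfl | h0
      · exact Or.inr (by rw [wd_u h, hu.2 h])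
      · obtain ⟨i, rfl⟩ : ∃ j, i = j + 1 := ⟨i - 1, by omega⟩
        rw [wd_u h, wd_u (by omega)]
        exact hu.1.adj i h
    · exact Or.inr wd_j
  · rw [wd_v (t := u.length + v.length - i + 1) (by omega) (by omega),
      wd_v (t := u.length + v.length - i) (by omega) (by omega)]
    exact (hv.1.adj _ (by omega)).symm

/-- Every triple of depth two or three comes from a gapset with largest difference two. -/
theorem exists_gap (h2 : 2 ≤ q) (h3 : q ≤ 3) (hX : X q u) (hY : Y q v) :
    ∃ G, Mem 2 (u.sum + q + v.sum) G ∧ R G ⟨q, v, u⟩ := by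
  obtain ⟨m, em⟩ : ∃ m, m = u.length + v.length + 2 := ⟨_, rfl⟩
  have hm0 : 0 < m := by omega
  have le := fun i (hi : i < m) => wd_le hX.1.1 hY.1.1 (i := i) (by omega)
  set G := (range (m * q)).filter fun z => z / m < wd q u v (z % m) with hG
  have key : ∀ i, i < m → ∀ s, i + m * s ∈ G ↔ s < wd q u v i := fun i hi s => by
    rw [hG, mem_filter, mem_range, Nat.add_mul_mod_self_left, Nat.mod_eq_of_lt hi,
      Nat.add_mul_div_left _ _ hm0, Nat.div_eq_of_lt hi, zero_add]
    refine ⟨fun h => h.2, fun h => ⟨?_, h⟩⟩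
    have k1 : m * (s + 1) ≤ m * q := Nat.mul_le_mul_left _ (by have := le i hi; omega)
    rw [mul_add] at k1
    omega
  have dec : ∀ z, ∃ i s, i < m ∧ z = i + m * s := fun z =>
    ⟨z % m, z / m, Nat.mod_lt _ hm0, (Nat.mod_add_div z m).symm⟩
  have h0 : 0 ∉ G := fun h => by
    have := (key 0 hm0 0).1 (by simpa using h)
    rw [wd_zero] at this
    omega
  have hm : IsMult G m := ⟨hm0, fun h => by
    have := (key 0 hm0 1).1 (by simpa using h)
    rw [wd_zero] at this
    omega, fun x h1 h2 => by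
    have := (key x h2 0).2 ((le x h2).1 h1 (by omega))
    simpa using this⟩
  obtain ⟨p, rfl⟩ : ∃ p, q = p + 2 := ⟨q - 2, by omega⟩
  have e1 : m * (p + 1) = m * p + m := by ring
  have hF : IsTop G (u.length + 1 + m * (p + 1)) := by
    refine ⟨(key _ (by omega) _).2 (by rw [wd_j]; omega), fun z hz => ?_⟩
    obtain ⟨i, s, hi, rfl⟩ := dec z
    have k1 := (key i hi s).1 hz
    have k2 := le i hi
    by_cases e : s = p + 1
    · subst e
      omega
    · have := Nat.mul_le_mul_left m (show s ≤ p by omega)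
      omega
  have last : wd (p + 2) u v (m - 1) = p + 1 ∨ m - 1 = u.length + 1 := by
    rcases Nat.eq_zero_or_pos v.length with e | e
    · omega
    · exact Or.inl (by rw [wd_v (t := 0) e (by omega), hY.1.2 e]; rfl)
  have two : ∀ y, y < u.length + 1 + m * (p + 1) → y ∈ G ∨ y + 1 ∈ G ∨ y = 0 := fun y hy => by
    obtain ⟨i, s, hi, rfl⟩ := dec y
    by_cases hn : s < wd (p + 2) u v i
    · exact Or.inl ((key i hi s).2 hn)
    have k1 : s ≤ p ∨ (s = p + 1 ∧ i ≤ u.length) := by
      by_contra hc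
      rcases (by omega : s = p + 1 ∨ p + 2 ≤ s) with e | e
      · subst e
        omega
      · have := Nat.mul_le_mul_left m e
        rw [show m * (p + 2) = m * p + 2 * m by ring] at this
        omega
    have kj : i = u.length + 1 → wd (p + 2) u v i = p + 2 := fun e => e ▸ wd_j
    by_cases hl : i + 1 < m
    · have k2 := wd_adj hX.1 hY.1 (i := i) (by omega)
      refine Or.inr (Or.inl ?_)
      rw [show i + m * s + 1 = i + 1 + m * s by omega, key _ hl]
      omega
    · obtain rfl : i = m - 1 := by omega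
      omega
  have h1 : m + 1 ∈ G := by
    have k2 := (wd_adj (q := p + 2) hX.1 hY.1 (i := 0) (by omega)).1 (by omega)
    rw [wd_zero] at k2
    have := (key (0 + 1) (by omega) 1).2 (by omega)
    rwa [show 0 + 1 + m * 1 = m + 1 by omega] at this
  refine ⟨G, ⟨gapset_of h0 hm fun z hz x y hx hy e => ?_, ?_, sparse_of_next hF fun a ha haF => ?_,
    m - 1, m + 1, ⟨hm.2.2 _ (by omega) (by omega), h1, by omega, fun c hc hh => ?_⟩, by omega⟩,
    by simpa only [← em] using hm, fun i hi s => by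
      simp only [← em] at hi ⊢
      exact key i hi s⟩
  · by_contra hc
    rw [not_or] at hc
    have hz' := hF.2 z hz
    have e2 : m * (p + 1) ≤ m * 2 := Nat.mul_le_mul_left _ (by omega)
    obtain ⟨a, rfl⟩ := Nat.exists_eq_add_of_le hx
    obtain ⟨b, rfl⟩ := Nat.exists_eq_add_of_le hy
    have k1 : ¬ 1 < wd (p + 2) u v a := fun h =>
      hc.1 (by simpa only [mul_one, add_comm] using (key a (by omega) 1).2 h)
    have k2 : ¬ 1 < wd (p + 2) u v b := fun h =>
      hc.2 (by simpa only [mul_one, add_comm] using (key b (by omega) 1).2 h)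
    have k3 := (key (a + b) (by omega) 2).1 (by rwa [show a + b + m * 2 = z by omega])
    have k4 := le (a + b) (by omega)
    have a0 : a ≠ 0 := fun e => by rw [e, zero_add] at k3; omega
    have b0 : b ≠ 0 := fun e => by rw [e, add_zero] at k3; omega
    obtain ⟨a, rfl⟩ : ∃ j, a = j + 1 := ⟨a - 1, by omega⟩
    obtain ⟨b, rfl⟩ : ∃ j, b = j + 1 := ⟨b - 1, by omega⟩
    have k5 := (le (a + 1) (by omega)).1 (by omega) (by omega)
    have k6 := (le (b + 1) (by omega)).1 (by omega) (by omega)
    rw [wd_u (by omega)] at k1 k2 k5 k6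
    have k7 := hX.2.1 (by omega) a b (by omega) (by omega)
    rw [show a + 1 + (b + 1) = a + b + 1 + 1 by omega, wd_u (by omega)] at k3 k4
    omega
  · rw [card_eq hm0 key, em, sum_wd]
  · by_cases e : a + 1 ∈ G
    · exact ⟨_, e, by omega, by omega⟩
    have : a + 1 ≠ u.length + 1 + m * (p + 1) := fun h => e (h ▸ hF.1)
    rcases two (a + 1) (by omega) with h | h | h
    · exact absurd h e
    · exact ⟨_, h, by omega, by omega⟩
    · omega
  · exact hm.2.1 (by rwa [show m = c by omega])

theorem lower (hg : 3 ≤ g) : D 2 (g - 2) + D 3 (g - 3) ≤ (fam 2 g).card := by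
  have e : (tr {2, 3} g).card = D 2 (g - 2) + D 3 (g - 3) := by
    rw [card_tr, sum_pair (by omega)]
  have dec : ∀ t ∈ tr {2, 3} g, (2 ≤ t.1 ∧ t.1 ≤ 3) ∧ X t.1 t.2.2 ∧ Y t.1 t.2.1 ∧
      t.2.2.sum + t.1 + t.2.1.sum = g := fun t ht => by
    obtain ⟨k1, k2⟩ := mem_sigma.1 ht
    obtain ⟨k2, k3⟩ := mem_sigma.1 k2
    have k4 := mem_ys.1 k2
    have k5 := mem_xs.1 k3
    simp only [mem_insert, mem_singleton] at k1
    exact ⟨by omega, k5.1, k4.1, by omega⟩
  rw [← e]
  refine card_le_card_of_forall_subsingleton (fun t G => R G t) (fun t ht => ?_)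
    fun G _ t ht t' ht' => ?_
  · obtain ⟨k1, k2, k3, k4⟩ := dec t ht
    obtain ⟨G, l1, l2⟩ := exists_gap k1.1 k1.2 k2 k3
    exact ⟨G, mem_fam.2 (k4 ▸ l1), l2⟩
  · obtain ⟨k1, k2, k3, -⟩ := dec t ht.1
    obtain ⟨l1, l2, l3, -⟩ := dec t' ht'.1
    obtain ⟨q, v, u⟩ := t
    obtain ⟨q', v', u'⟩ := t'
    obtain ⟨rfl, rfl, rfl⟩ := R_right (one_le_two.trans k1.1) (one_le_two.trans l1.1)
      k2.1.1 k3.1.1 l2.1.1 l3.1.1 ht.2 ht'.2
    rfl

end Pool.Agent.MP_0bb195_co.Sp
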