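import Pool.Agent.MP_0bb195_co.sp.Tab

/-!
The test of the tables for pairs of folded words.
-/

namespace Pool.Agent.MP_0bb195_co.Sp

theorem chkU : allB (fun i => chk (i + 3) (tT (i + 4)).b (tU (i + 4))) 16 = true := by
  decide +kernel

end Pool.Agent.MP_0bb195_co.Sp
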