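import Pool.Agent.MP_0bb195_co.sp.Count
import Pool.Agent.MP_0bb195_co.sp.TabU
import Mathlib.Algebra.Order.Field.GeomSum

/-!
The number of gapsets with largest difference two does not decrease with the genus.
-/

namespace Pool.Agent.MP_0bb195_co.Sp

open Finset Gap

/-- Shifted table entry. -/
def shN (t d n : ℕ) : ℕ := cond (Nat.ble d n) (lk t (n - d)) 0

lemma shN_cast (t d n : ℕ) : (shN t d n : ℝ) = sh (fun m => (lk t m : ℝ)) d n := by
  unfold shN sh
  by_cases h : d ≤ n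
  · rw [if_pos h, Nat.ble_eq_true_of_le h]; rfl
  · rw [if_neg h, show Nat.ble d n = false by simpa [← Nat.ble_eq] using h]; simp

lemma δ_eq (n : ℕ) (h : n ≤ 60) : (lk 1 n : ℝ) = δ n := by
  have : ∀ n < 61, lk 1 n = if n = 0 then 1 else 0 := by decide +kernel
  rw [this n (by omega), δ]
  split_ifs <;> simp

theorem recs : allB (fun n => Nat.ble (lk tP n) (lk 1 n + (shN tP 2 n + shN tP 3 n)) &&
    Nat.ble (lk tA n) (lk 1 n + (shN tA 3 n + shN tA 5 n)) &&
    Nat.ble (lk tE n) (lk tA n + (shN tE 2 n + shN tE 3 n))) 61 = true := by decide +kernel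

lemma tabs (n : ℕ) (hn : n ≤ 60) :
    (lk tP n : ℝ) ≤ Eh δ n ∧ (lk tA n : ℝ) ≤ x 3 n ∧ (lk tE n : ℝ) ≤ Eh (x 3) n := by
  have k := fun n (hn : n ≤ 60) => allB_spec _ recs n (by omega)
  simp only [Bool.and_eq_true, Nat.ble_eq] at k
  have hA : ∀ n, n ≤ 60 → (lk tA n : ℝ) ≤ x 3 n := le_x_three fun n hn => by
    rw [← δ_eq n hn, ← shN_cast, ← shN_cast]
    exact_mod_cast (k n hn).1.2
  refine ⟨le_Eh (L := fun m => (lk tP m : ℝ)) (fun n hn => ?_) n hn, hA n hn,
    le_Eh (L := fun m => (lk tE m : ℝ)) (fun n hn => ?_) n hn⟩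
  · rw [← δ_eq n hn, ← shN_cast, ← shN_cast]
    exact_mod_cast (k n hn).1.1
  · refine le_trans ?_ (add_le_add (hA n hn) le_rfl)
    rw [← shN_cast, ← shN_cast]
    exact_mod_cast (k n hn).2

lemma D_mid {q : ℕ} (h1 : 4 ≤ q) (h2 : q ≤ 19) (n : ℕ) : (D q n : ℝ) ≤ (tU q).b.val n := by
  obtain ⟨i, rfl⟩ : ∃ i, q = i + 4 := ⟨q - 4, by omega⟩
  exact D_le (fun m => x_le dl_zero (fun _ h => ⟨h.1, h.2.2 h1⟩)
      (chk_bd (by omega) (allB_spec _ chkT i (by omega)) m))
    (P := fun w => Q (i + 3) w ∧ Sym (i + 3) w) (fun _ h => ⟨h.1, h.2 h1⟩)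
    (chk_bd (by omega) (allB_spec _ chkU i (by omega)) n)

lemma sm_eq (f : ℕ → ℝ) : ∀ k, sm f k = ∑ i ∈ range k, f (i + 1)
  | 0 => rfl
  | k + 1 => by rw [sm, sum_range_succ, sm_eq f k]

/-- The bound for depth `4, …, 19`. -/
noncomputable def mid (g : ℕ) : ℝ := sm (fun i => sh (tU (i + 3)).b.val (i + 3) g) 16

/-- The bound for depth at least `20`. -/
noncomputable def big (g : ℕ) : ℝ := if 20 ≤ g then (200 / 151) ^ g / 64 else 0

lemma deep (g : ℕ) : ∑ q ∈ Icc 4 g, (D q (g - q) : ℝ) ≤ mid g + big g := by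
  rw [← sum_filter_add_sum_filter_not (Icc 4 g) (· ≤ 19)]
  refine add_le_add ?_ ?_
  · have e : mid g = ∑ q ∈ Ico 4 20, sh (tU q).b.val q g := by
      rw [mid, sm_eq, sum_Ico_eq_sum_range]
      exact sum_congr rfl fun i _ => by rw [show i + 1 + 3 = 4 + i by omega]
    rw [e]
    refine (sum_le_sum fun q hq => ?_).trans (sum_le_sum_of_subset_of_nonneg (fun q hq => ?_)
      fun q _ _ => sh_nonneg (Sq.nonneg _) _ _)
    · simp only [mem_filter, mem_Icc] at hq
      rw [sh_pos hq.1.2]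
      exact D_mid hq.1.1 hq.2 _
    · simp only [mem_filter, mem_Icc, mem_Ico] at hq ⊢
      omega
  · have e : (Icc 4 g).filter (fun q => ¬ q ≤ 19) = Ico 20 (g + 1) := by
      ext q
      simp only [mem_filter, mem_Icc, mem_Ico]
      omega
    rw [e, big]
    split_ifs with h
    · have k : ∀ q ∈ Ico 20 (g + 1), (D q (g - q) : ℝ) ≤
          1043 / 1000 * (200 / 151) ^ g * (151 / 200) ^ q := fun q hq => by
        have hq' := mem_Ico.1 hq
        have := sh_geo (c := 1043 / 1000) (by norm_num) q g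
        rw [sh_pos (by omega)] at this
        exact (D_big hq'.1 _).trans this
      refine (sum_le_sum k).trans ?_
      rw [← mul_sum]
      have l := geom_sum_Ico_le_of_lt_one (x := (151 / 200 : ℝ)) (m := 20) (n := g + 1)
        (by norm_num) (by norm_num)
      have l2 : ((151 / 200 : ℝ)) ^ 20 / (1 - 151 / 200) ≤ 149 / 10000 := by norm_num
      have l3 : (0 : ℝ) ≤ (200 / 151) ^ g := by positivity
      nlinarith [mul_le_mul_of_nonneg_left (l.trans l2) l3]
    · rw [Ico_eq_empty (by omega), sum_empty]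

theorem small : allB (fun n => Nat.ble
    (sm (fun i => shN (tU (i + 3)).b.t (i + 3) (n + 3)) 16 +
      cond (Nat.ble 20 (n + 3)) (200 ^ (n + 3) / (64 * 151 ^ (n + 3)) + 1) 0 +
      (shN 1 1 (n + 1) + shN 1 4 (n + 1) + shN 1 6 (n + 1) + shN 1 9 (n + 1)))
    (lk tP (n + 2) + (shN tA 0 (n + 1) + shN tA 2 (n + 1) + shN tA 10 (n + 1) + shN tA 11 (n + 1) +
      2 * shN tA 12 (n + 1) + 3 * shN tA 13 (n + 1) + 4 * shN tA 14 (n + 1) +
      (7 * shN tE 15 (n + 1) + 9 * shN tE 16 (n + 1) + 5 * shN tE 17 (n + 1))))) 58 = true := by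
  decide +kernel

theorem tailN : 100 * sm (fun i => gam 10 (tU (i + 3)).b.k (20 - (i + 3))) 16 ≤
    46 * (1048576 * 200 ^ 20) := by decide +kernel

theorem winN : allB (fun k => Nat.ble (12 * 200 ^ (k + 58)) (25 * 151 ^ (k + 58) *
    (lk tP (k + 57) + (7 * lk tE (k + 41) + 9 * lk tE (k + 40) + 5 * lk tE (k + 39))))) 3 = true := by
  decide +kernel

lemma grow : ∀ k, 12 / 25 * (200 / 151 : ℝ) ^ (k + 58) ≤ Eh δ (k + 57) +
    (7 * Eh (x 3) (k + 41) + 9 * Eh (x 3) (k + 40) + 5 * Eh (x 3) (k + 39)) := by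
  intro k
  induction k using Nat.strong_induction_on with
  | _ k ih =>
  by_cases h : k < 3
  · have w := allB_spec _ winN k h
    rw [Nat.ble_eq] at w
    have w' : (12 : ℝ) * 200 ^ (k + 58) ≤ 25 * 151 ^ (k + 58) * (lk tP (k + 57) +
        (7 * lk tE (k + 41) + 9 * lk tE (k + 40) + 5 * lk tE (k + 39))) := by exact_mod_cast w
    have a := (tabs (k + 57) (by omega)).1
    have b := (tabs (k + 41) (by omega)).2.2
    have c := (tabs (k + 40) (by omega)).2.2
    have d := (tabs (k + 39) (by omega)).2.2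
    refine le_trans ?_ (show (lk tP (k + 57) : ℝ) +
      (7 * lk tE (k + 41) + 9 * lk tE (k + 40) + 5 * lk tE (k + 39)) ≤ _ by linarith)
    rw [div_pow, div_mul_div_comm, div_le_iff₀ (by positivity), mul_comm _ (25 * _ : ℝ)]
    exact w'
  · obtain ⟨j, rfl⟩ : ∃ j, k = j + 3 := ⟨k - 3, by omega⟩
    have i1 := ih (j + 1) (by omega)
    have i0 := ih j (by omega)
    have a : Eh δ (j + 3 + 57) = δ (j + 57 + 3) + (Eh δ (j + 1 + 57) + Eh δ (j + 57)) := rfl
    have b : Eh (x 3) (j + 3 + 41) =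
      x 3 (j + 41 + 3) + (Eh (x 3) (j + 1 + 41) + Eh (x 3) (j + 41)) := rfl
    have c : Eh (x 3) (j + 3 + 40) =
      x 3 (j + 40 + 3) + (Eh (x 3) (j + 1 + 40) + Eh (x 3) (j + 40)) := rfl
    have d : Eh (x 3) (j + 3 + 39) =
      x 3 (j + 39 + 3) + (Eh (x 3) (j + 1 + 39) + Eh (x 3) (j + 39)) := rfl
    have := δ_nonneg (j + 57 + 3)
    have := x_nonneg 3 (j + 41 + 3)
    have := x_nonneg 3 (j + 40 + 3)
    have := x_nonneg 3 (j + 39 + 3)
    have p : (0 : ℝ) ≤ (200 / 151) ^ (j + 58) := by positivity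
    rw [show j + 1 + 58 = j + 58 + 1 by omega, pow_succ] at i1
    rw [show j + 3 + 58 = j + 58 + 3 by omega, pow_add _ _ 3]
    linarith

lemma key (n : ℕ) : mid (n + 3) + big (n + 3) + Eh (x 3) n ≤ Eh δ (n + 2) + Eh (x 3) (n + 1) := by
  have s := surplus n
  by_cases hn : n < 58
  · have w := allB_spec _ small n hn
    rw [Nat.ble_eq] at w
    have w' := (Nat.cast_le (α := ℝ)).2 w
    have k1 : mid (n + 3) ≤ 1 * (sm (fun i => shN (tU (i + 3)).b.t (i + 3) (n + 3)) 16 : ℕ) :=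
      sm_le 16 fun i _ _ => by
        rw [one_mul, shN_cast]
        exact sh_le (N := 60) (fun m hm => by rw [Sq.val, if_pos hm]) (by omega)
    have k2 : big (n + 3) ≤
        (cond (Nat.ble 20 (n + 3)) (200 ^ (n + 3) / (64 * 151 ^ (n + 3)) + 1) 0 : ℕ) := by
      unfold big
      split_ifs with h
      · rw [Nat.ble_eq_true_of_le h, cond_true, div_pow, div_div, div_le_iff₀ (by positivity)]
        have := Nat.lt_div_mul_add (a := 200 ^ (n + 3)) (b := 64 * 151 ^ (n + 3)) (by positivity)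
        rw [mul_comm _ (64 : ℝ), Nat.cast_add, Nat.cast_one, add_mul, one_mul]
        exact_mod_cast this.le
      · positivity
    have k3 : ∀ d, sh δ d (n + 1) ≤ shN 1 d (n + 1) := fun d => by
      rw [shN_cast]
      exact sh_le (N := 60) (fun m hm => (δ_eq m hm).ge) (by omega)
    have k4 : ∀ d, (shN tA d (n + 1) : ℝ) ≤ sh (x 3) d (n + 1) := fun d => by
      rw [shN_cast]
      exact sh_le (N := 60) (fun m hm => (tabs m hm).2.1) (by omega)
    have k5 : ∀ d, (shN tE d (n + 1) : ℝ) ≤ sh (Eh (x 3)) d (n + 1) := fun d => by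
      rw [shN_cast]
      exact sh_le (N := 60) (fun m hm => (tabs m hm).2.2) (by omega)
    have k6 := (tabs (n + 2) (by omega)).1
    simp only [Nat.cast_add, Nat.cast_mul, Nat.cast_ofNat] at w'
    linarith [k3 1, k3 4, k3 6, k3 9, k4 0, k4 2, k4 10, k4 11, k4 12, k4 13, k4 14, k5 15, k5 16,
      k5 17]
  · obtain ⟨k, rfl⟩ : ∃ k, n = k + 55 := ⟨n - 55, by omega⟩
    have gr := grow k
    have hc : (0 : ℝ) ≤ (200 / 151 : ℝ) ^ (k + 55 + 3) / (1048576 * 200 ^ (2 * 10)) := by positivity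
    have k1 : mid (k + 55 + 3) ≤ (200 / 151 : ℝ) ^ (k + 55 + 3) / (1048576 * 200 ^ (2 * 10)) *
        (sm (fun i => gam 10 (tU (i + 3)).b.k (20 - (i + 3))) 16 : ℕ) :=
      sm_le 16 fun i h1 h2 => by
        rw [sh_pos (by omega), ← geo_gam (r := 10) _ (by omega) (by omega)]
        obtain ⟨j, rfl⟩ : ∃ j, i = j + 1 := ⟨i - 1, by omega⟩
        exact chk_tail (allB_spec _ chkU j (by omega)) (by omega)
    have k2 : (100 : ℝ) * (sm (fun i => gam 10 (tU (i + 3)).b.k (20 - (i + 3))) 16 : ℕ) ≤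
        46 * (1048576 * 200 ^ 20) := by exact_mod_cast tailN
    have k3 : mid (k + 55 + 3) ≤ 46 / 100 * (200 / 151 : ℝ) ^ (k + 58) := by
      refine k1.trans ((mul_le_mul_of_nonneg_left (show _ ≤ 46 / 100 * (1048576 * 200 ^ 20 : ℝ) by
        linarith) hc).trans (le_of_eq ?_))
      field_simp
    have k4 : big (k + 55 + 3) = (200 / 151 : ℝ) ^ (k + 58) / 64 := if_pos (by omega)
    have k5 : ∀ d, d ≤ 9 → sh δ d (k + 55 + 1) = 0 := fun d hd => by
      rw [sh_pos (by omega), δ, if_neg (by omega)]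
    have k6 := fun d => sh_nonneg (x_nonneg 3) d (k + 55 + 1)
    have p : (0 : ℝ) ≤ (200 / 151) ^ (k + 58) := by positivity
    rw [k5 1 (by omega), k5 4 (by omega), k5 6 (by omega), k5 9 (by omega),
      sh_pos (d := 15) (by omega), sh_pos (d := 16) (by omega), sh_pos (d := 17) (by omega),
      show k + 55 + 1 - 15 = k + 41 by omega, show k + 55 + 1 - 16 = k + 40 by omega,
      show k + 55 + 1 - 17 = k + 39 by omega] at s
    rw [show k + 55 + 2 = k + 57 by omega]
    linarith [k6 0, k6 2, k6 10, k6 11, k6 12, k6 13, k6 14]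

theorem main {g : ℕ} (hg : 2 ≤ g) : (fam 2 g).card ≤ (fam 2 (g + 1)).card := by
  rcases hg.eq_or_lt with rfl | h
  · exact main_large (by omega) (by omega)
  obtain ⟨n, rfl⟩ : ∃ n, g = n + 3 := ⟨g - 3, by omega⟩
  have u := (Nat.cast_le (α := ℝ)).2 (upper (n + 3))
  have l := (Nat.cast_le (α := ℝ)).2 (lower (g := n + 3 + 1) (by omega))
  rw [← insert_Icc_add_one_left_eq_Icc (by omega), sum_insert (by simp),
    ← insert_Icc_add_one_left_eq_Icc (by omega), sum_insert (by simp)] at u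
  rw [show n + 3 + 1 - 2 = n + 1 + 1 by omega, show n + 3 + 1 - 3 = n + 1 by omega] at l
  rw [show n + 3 - 2 = n + 1 by omega, show n + 3 - (2 + 1) = n by omega] at u
  simp only [Nat.cast_add, Nat.cast_sum] at u l
  have k1 := deep (n + 3)
  have k2 := key n
  have k3 := D_two (n + 1)
  have k4 := pad_le (n + 2)
  have k5 := D_three n
  have k6 := D_three (n + 1)
  refine (Nat.cast_le (α := ℝ)).1 ?_
  norm_num at u
  linarith

end Pool.Agent.MP_0bb195_co.Sp
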